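import Mathlib

set_option autoImplicit false

/-! Point sets of the real projective plane with coordinates in `ℤ[√d]`, and an executable upper
bound for the number of connecting lines through each point. -/

namespace Pool.Agent.H12.Dirac

/-- A vector `(a1 + b1 √d, a2 + b2 √d, a3 + b3 √d)`. -/
structure W where
  (a1 b1 a2 b2 a3 b3 : ℤ)

/-- cross product -/
def cross (d : ℤ) (p q : W) : W where
  a1 := p.a2 * q.a3 + d * (p.b2 * q.b3) - (p.a3 * q.a2 + d * (p.b3 * q.b2))
  b1 := p.a2 * q.b3 + p.b2 * q.a3 - (p.a3 * q.b2 + p.b3 * q.a2)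
  a2 := p.a3 * q.a1 + d * (p.b3 * q.b1) - (p.a1 * q.a3 + d * (p.b1 * q.b3))
  b2 := p.a3 * q.b1 + p.b3 * q.a1 - (p.a1 * q.b3 + p.b1 * q.a3)
  a3 := p.a1 * q.a2 + d * (p.b1 * q.b2) - (p.a2 * q.a1 + d * (p.b2 * q.b1))
  b3 := p.a1 * q.b2 + p.b1 * q.a2 - (p.a2 * q.b1 + p.b2 * q.a1)

/-- first component of the dot product -/
def dot1 (d : ℤ) (p q : W) : ℤ :=
  p.a1 * q.a1 + p.a2 * q.a2 + p.a3 * q.a3 + d * (p.b1 * q.b1 + p.b2 * q.b2 + p.b3 * q.b3)

/-- second component of the dot product -/
def dot2 (p q : W) : ℤ :=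
  p.a1 * q.b1 + p.b1 * q.a1 + (p.a2 * q.b2 + p.b2 * q.a2) + (p.a3 * q.b3 + p.b3 * q.a3)

/-- the zero test for vectors -/
def W.isZero (c : W) : Bool :=
  c.a1 == 0 && c.b1 == 0 && c.a2 == 0 && c.b2 == 0 && c.a3 == 0 && c.b3 == 0

/-- orthogonality test -/
def orth (d : ℤ) (c r : W) : Bool := dot1 d c r == 0 && dot2 c r == 0

/-- Greedy choice of representatives of the lines through `p`. -/
def reps (d : ℤ) (p : W) : List W → List W → List W
  | [], acc => acc
  | q :: qs, acc =>
    let c := cross d p q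
    if c.isZero then reps d p qs acc
    else if acc.any (orth d c) then reps d p qs acc
    else reps d p qs (q :: acc)

/-- real value of a coordinate -/
noncomputable def val (d : ℤ) (a b : ℤ) : ℝ := a + b * Real.sqrt d

/-- the point of the Euclidean plane -/
noncomputable def pt (d : ℤ) (w : W) : EuclideanSpace ℝ (Fin 2) :=
  !₂[val d w.a1 w.b1 / val d w.a3 w.b3, val d w.a2 w.b2 / val d w.a3 w.b3]

lemma reps_acc_subset (d : ℤ) (p : W) (l : List W) :
    ∀ acc : List W, ∀ r ∈ acc, r ∈ reps d p l acc := by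
  induction l with
  | nil => intro acc r hr; simpa [reps] using hr
  | cons q qs ih =>
    intro acc r hr
    simp only [reps]
    split_ifs
    · exact ih acc r hr
    · exact ih acc r hr
    · exact ih (q :: acc) r (List.mem_cons_of_mem _ hr)

lemma mem_reps (d : ℤ) (p : W) (l : List W) :
    ∀ acc : List W, ∀ r ∈ reps d p l acc, r ∈ acc ∨ (r ∈ l ∧ (cross d p r).isZero = false) := by
  induction l with
  | nil => intro acc r hr; left; simpa [reps] using hr
  | cons q qs ih =>
    intro acc r hr
    simp only [reps] at hr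
    split_ifs at hr with h1 h2
    · rcases ih acc r hr with h | ⟨h, h'⟩
      · exact Or.inl h
      · exact Or.inr ⟨List.mem_cons_of_mem _ h, h'⟩
    · rcases ih acc r hr with h | ⟨h, h'⟩
      · exact Or.inl h
      · exact Or.inr ⟨List.mem_cons_of_mem _ h, h'⟩
    · rcases ih (q :: acc) r hr with h | ⟨h, h'⟩
      · rcases List.mem_cons.1 h with rfl | h
        · right
          refine ⟨List.mem_cons_self, ?_⟩
          simpa using h1
        · exact Or.inl h
      · exact Or.inr ⟨List.mem_cons_of_mem _ h, h'⟩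

lemma orth_self (d : ℤ) (p q : W) : orth d (cross d p q) q = true := by
  simp only [orth, Bool.and_eq_true, beq_iff_eq, dot1, dot2, cross]
  constructor <;> ring

lemma exists_reps (d : ℤ) (p : W) (l : List W) :
    ∀ acc : List W, ∀ q ∈ l, (cross d p q).isZero = false →
      ∃ r ∈ reps d p l acc, orth d (cross d p q) r = true := by
  induction l with
  | nil => intro acc q hq; simp at hq
  | cons q' qs ih =>
    intro acc q hq h0
    simp only [reps]
    rcases List.mem_cons.1 hq with rfl | hq
    · rw [if_neg (by simp [h0])]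
      split_ifs with h2
      · obtain ⟨r, hr, hr'⟩ := List.any_eq_true.1 h2
        exact ⟨r, reps_acc_subset d p qs acc r hr, hr'⟩
      · exact ⟨q, reps_acc_subset d p qs _ q List.mem_cons_self, orth_self d p q⟩
    · split_ifs
      · exact ih acc q hq h0
      · exact ih acc q hq h0
      · exact ih _ q hq h0

/-! Real values. -/

variable {d : ℤ}

lemma val_mul (hd : 0 ≤ d) (a b a' b' : ℤ) :
    val d a b * val d a' b' = val d (a * a' + d * (b * b')) (a * b' + b * a') := by
  have h : Real.sqrt (d : ℝ) * Real.sqrt d = d := Real.mul_self_sqrt (by exact_mod_cast hd)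
  simp only [val]
  push_cast
  linear_combination (b * b' : ℝ) * h

lemma val_sub (a b a' b' : ℤ) : val d a b - val d a' b' = val d (a - a') (b - b') := by
  simp only [val]; push_cast; ring

lemma val_add (a b a' b' : ℤ) : val d a b + val d a' b' = val d (a + a') (b + b') := by
  simp only [val]; push_cast; ring

lemma val_eq_zero (hirr : Irrational (Real.sqrt d)) {a b : ℤ} (h : val d a b = 0) :
    a = 0 ∧ b = 0 := by
  by_cases hb : b = 0
  · subst hb
    simp only [val, Int.cast_zero, zero_mul, add_zero, Int.cast_eq_zero] at h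
    exact ⟨h, rfl⟩
  · exfalso
    have h1 : Real.sqrt d = ((-a : ℤ) : ℝ) / (b : ℝ) := by
      have hb' : (b : ℝ) ≠ 0 := by exact_mod_cast hb
      rw [eq_div_iff hb']
      simp only [val] at h
      push_cast
      linear_combination h
    apply hirr
    refine ⟨((-a : ℤ) : ℚ) / (b : ℚ), ?_⟩
    rw [h1]
    push_cast
    ring

/-- real vector -/
noncomputable def v1 (d : ℤ) (w : W) : ℝ := val d w.a1 w.b1
/-- real vector -/
noncomputable def v2 (d : ℤ) (w : W) : ℝ := val d w.a2 w.b2
/-- real vector -/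
noncomputable def v3 (d : ℤ) (w : W) : ℝ := val d w.a3 w.b3

lemma v1_cross (hd : 0 ≤ d) (p q : W) :
    v1 d (cross d p q) = v2 d p * v3 d q - v3 d p * v2 d q := by
  simp only [v1, v2, v3, cross, val_mul hd, val_sub]

lemma v2_cross (hd : 0 ≤ d) (p q : W) :
    v2 d (cross d p q) = v3 d p * v1 d q - v1 d p * v3 d q := by
  simp only [v1, v2, v3, cross, val_mul hd, val_sub]

lemma v3_cross (hd : 0 ≤ d) (p q : W) :
    v3 d (cross d p q) = v1 d p * v2 d q - v2 d p * v1 d q := by
  simp only [v1, v2, v3, cross, val_mul hd, val_sub]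

lemma dot_val (hd : 0 ≤ d) (p q : W) :
    v1 d p * v1 d q + v2 d p * v2 d q + v3 d p * v3 d q = val d (dot1 d p q) (dot2 p q) := by
  simp only [v1, v2, v3, val_mul hd, val_add, dot1, dot2]
  congr 1
  ring

lemma isZero_iff (c : W) : c.isZero = true ↔
    c.a1 = 0 ∧ c.b1 = 0 ∧ c.a2 = 0 ∧ c.b2 = 0 ∧ c.a3 = 0 ∧ c.b3 = 0 := by
  simp [W.isZero, Bool.and_eq_true, and_assoc]

lemma pt_eq_iff (hd : 0 ≤ d) (hirr : Irrational (Real.sqrt d)) {p q : W} (hp : v3 d p ≠ 0)
    (hq : v3 d q ≠ 0) : pt d p = pt d q ↔ (cross d p q).isZero = true := by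
  have key : pt d p = pt d q ↔ v1 d p / v3 d p = v1 d q / v3 d q ∧
      v2 d p / v3 d p = v2 d q / v3 d q := by
    constructor
    · intro h
      exact ⟨congrFun (congrArg (fun x : EuclideanSpace ℝ (Fin 2) => (x : Fin 2 → ℝ)) h) 0,
        congrFun (congrArg (fun x : EuclideanSpace ℝ (Fin 2) => (x : Fin 2 → ℝ)) h) 1⟩
    · rintro ⟨h0, h1⟩
      ext i
      fin_cases i
      · exact h0
      · exact h1
  rw [key, div_eq_div_iff hp hq, div_eq_div_iff hp hq, isZero_iff]
  have e1 := v1_cross hd p q
  have e2 := v2_cross hd p q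
  have e3 := v3_cross hd p q
  constructor
  · rintro ⟨h1, h2⟩
    have z2 : v2 d (cross d p q) = 0 := by rw [e2]; linear_combination -h1
    have z1 : v1 d (cross d p q) = 0 := by rw [e1]; linear_combination h2
    have z3 : v3 d (cross d p q) = 0 := by
      rw [e3]
      have : v3 d p * (v1 d p * v2 d q - v2 d p * v1 d q) = 0 := by
        linear_combination (v2 d p) * h1 - (v1 d p) * h2
      rcases mul_eq_zero.1 this with h | h
      · exact absurd h hp
      · exact h
    obtain ⟨x1, y1⟩ := val_eq_zero hirr z1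
    obtain ⟨x2, y2⟩ := val_eq_zero hirr z2
    obtain ⟨x3, y3⟩ := val_eq_zero hirr z3
    exact ⟨x1, y1, x2, y2, x3, y3⟩
  · rintro ⟨x1, y1, x2, y2, x3, y3⟩
    have z1 : v1 d (cross d p q) = 0 := by simp [v1, val, x1, y1]
    have z2 : v2 d (cross d p q) = 0 := by simp [v2, val, x2, y2]
    rw [e1] at z1
    rw [e2] at z2
    constructor
    · linear_combination -z2
    · linear_combination z1

/-- Two points collinear with `x` span the same line with `x`. -/
lemma span_eq_of_cross {x y z : EuclideanSpace ℝ (Fin 2)} (hy : y ≠ x) (hz : z ≠ x)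
    (h : (y 0 - x 0) * (z 1 - x 1) = (y 1 - x 1) * (z 0 - x 0)) :
    affineSpan ℝ ({x, y} : Set (EuclideanSpace ℝ (Fin 2))) = affineSpan ℝ {x, z} := by
  have main : ∀ u w : EuclideanSpace ℝ (Fin 2), u ≠ x →
      (u 0 - x 0) * (w 1 - x 1) = (u 1 - x 1) * (w 0 - x 0) →
      w ∈ affineSpan ℝ ({x, u} : Set (EuclideanSpace ℝ (Fin 2))) := by
    intro u w hu huw
    rw [mem_affineSpan_pair_iff_exists_lineMap_eq]
    by_cases h0 : u 0 - x 0 = 0
    · have h1 : u 1 - x 1 ≠ 0 := by
        intro h1
        apply hu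
        ext i
        fin_cases i
        · exact sub_eq_zero.1 h0
        · exact sub_eq_zero.1 h1
      refine ⟨(w 1 - x 1) / (u 1 - x 1), ?_⟩
      have hw0 : w 0 - x 0 = 0 := by
        rw [h0, zero_mul] at huw
        rcases mul_eq_zero.1 huw.symm with h' | h'
        · exact absurd h' h1
        · exact h'
      ext i
      fin_cases i
      · simp only [AffineMap.lineMap_apply, vsub_eq_sub, vadd_eq_add, PiLp.add_apply,
          PiLp.smul_apply, PiLp.sub_apply, smul_eq_mul, Fin.zero_eta, Fin.isValue]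
        rw [h0]
        linarith
      · simp only [AffineMap.lineMap_apply, vsub_eq_sub, vadd_eq_add, PiLp.add_apply,
          PiLp.smul_apply, PiLp.sub_apply, smul_eq_mul, Fin.mk_one, Fin.isValue]
        rw [div_mul_cancel₀ _ h1]
        ring
    · refine ⟨(w 0 - x 0) / (u 0 - x 0), ?_⟩
      ext i
      fin_cases i
      · simp only [AffineMap.lineMap_apply, vsub_eq_sub, vadd_eq_add, PiLp.add_apply,
          PiLp.smul_apply, PiLp.sub_apply, smul_eq_mul, Fin.zero_eta, Fin.isValue]
        rw [div_mul_cancel₀ _ h0]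
        ring
      · simp only [AffineMap.lineMap_apply, vsub_eq_sub, vadd_eq_add, PiLp.add_apply,
          PiLp.smul_apply, PiLp.sub_apply, smul_eq_mul, Fin.mk_one, Fin.isValue]
        have : (w 0 - x 0) / (u 0 - x 0) * (u 1 - x 1) = w 1 - x 1 := by
          rw [div_mul_eq_mul_div, div_eq_iff h0]
          linarith
        rw [this]
        ring
  apply le_antisymm
  · exact affineSpan_pair_le_of_mem_of_mem (left_mem_affineSpan_pair ℝ x z)
      (main z y hz (by linarith))
  · exact affineSpan_pair_le_of_mem_of_mem (left_mem_affineSpan_pair ℝ x y) (main y z hy h)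

lemma det_of_mem {x y z : EuclideanSpace ℝ (Fin 2)}
    (h : z ∈ affineSpan ℝ ({x, y} : Set (EuclideanSpace ℝ (Fin 2)))) :
    (y 0 - x 0) * (z 1 - x 1) = (y 1 - x 1) * (z 0 - x 0) := by
  rw [mem_affineSpan_pair_iff_exists_lineMap_eq] at h
  obtain ⟨t, rfl⟩ := h
  simp only [AffineMap.lineMap_apply, vsub_eq_sub, vadd_eq_add, PiLp.add_apply, PiLp.smul_apply,
    PiLp.sub_apply, smul_eq_mul]
  ring

lemma pt_zero (w : W) : pt d w 0 = v1 d w / v3 d w := rfl
lemma pt_one (w : W) : pt d w 1 = v2 d w / v3 d w := rfl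

lemma det_pt (hd : 0 ≤ d) {p q r : W} (hp : v3 d p ≠ 0) (hq : v3 d q ≠ 0) (hr : v3 d r ≠ 0) :
    ((pt d q 0 - pt d p 0) * (pt d r 1 - pt d p 1) - (pt d q 1 - pt d p 1) * (pt d r 0 - pt d p 0))
      * (v3 d p * v3 d q * v3 d r) =
    val d (dot1 d (cross d p q) r) (dot2 (cross d p q) r) := by
  rw [← dot_val hd, v1_cross hd, v2_cross hd, v3_cross hd, pt_zero, pt_zero, pt_zero, pt_one,
    pt_one, pt_one]
  field_simp
  ring

lemma span_eq_of_orth (hd : 0 ≤ d) {p q r : W}
    (hp : v3 d p ≠ 0) (hq : v3 d q ≠ 0) (hr : v3 d r ≠ 0)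
    (hpq : pt d q ≠ pt d p) (hpr : pt d r ≠ pt d p) (h : orth d (cross d p q) r = true) :
    affineSpan ℝ ({pt d p, pt d q} : Set (EuclideanSpace ℝ (Fin 2))) =
      affineSpan ℝ {pt d p, pt d r} := by
  apply span_eq_of_cross hpq hpr
  simp only [orth, Bool.and_eq_true, beq_iff_eq] at h
  have h1 := det_pt hd hp hq hr
  rw [h.1, h.2] at h1
  have h2 : val d 0 0 = 0 := by simp [val]
  rw [h2] at h1
  rcases mul_eq_zero.1 h1 with h3 | h3
  · linarith
  · exact absurd h3 (mul_ne_zero (mul_ne_zero hp hq) hr)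

/-- the affine chart test -/
def chart (l : List W) : Bool := l.all fun w => !(w.a3 == 0 && w.b3 == 0)

/-- the points are pairwise distinct -/
def distinct (d : ℤ) : List W → Bool
  | [] => true
  | p :: l => l.all (fun q => !(cross d p q).isZero) && distinct d l

/-- at most `k` lines through every point -/
def few (d : ℤ) (k : ℕ) (l : List W) : Bool :=
  l.all fun p => Nat.ble (reps d p l []).length k

/-- the first three points are not collinear -/
def noncol (d : ℤ) : List W → Bool
  | p :: q :: r :: _ => !(orth d (cross d p q) r)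
  | _ => false

lemma v3_ne (hirr : Irrational (Real.sqrt d)) {l : List W} (h : chart l = true) {w : W}
    (hw : w ∈ l) : v3 d w ≠ 0 := by
  intro h0
  obtain ⟨h1, h2⟩ := val_eq_zero hirr h0
  simp only [chart, List.all_eq_true] at h
  have := h w hw
  simp [h1, h2] at this

lemma injOn_pt (hd : 0 ≤ d) (hirr : Irrational (Real.sqrt d)) :
    ∀ l : List W, chart l = true → distinct d l = true → (l.map (pt d)).Nodup
  | [], _, _ => by simp
  | p :: l, hc, hdis => by
    simp only [distinct, Bool.and_eq_true, List.all_eq_true] at hdis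
    have hc' : chart l = true := by
      simp only [chart, List.all_eq_true] at hc ⊢
      exact fun w hw => hc w (List.mem_cons_of_mem _ hw)
    rw [List.map_cons, List.nodup_cons]
    refine ⟨?_, injOn_pt hd hirr l hc' hdis.2⟩
    intro hmem
    obtain ⟨q, hq, hqp⟩ := List.mem_map.1 hmem
    have h1 := (pt_eq_iff hd hirr (v3_ne hirr hc List.mem_cons_self)
      (v3_ne hirr hc (List.mem_cons_of_mem _ hq))).1 hqp.symm
    have h2 := hdis.1 q hq
    rw [h1] at h2
    simp at h2

/-- Main transfer theorem. -/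
theorem exists_config (hd : 0 ≤ d) (hirr : Irrational (Real.sqrt d)) (l : List W) (k : ℕ)
    (hc : chart l = true) (hdis : distinct d l = true) (hfew : few d k l = true)
    (hnc : noncol d l = true) :
    ∃ S : Finset (EuclideanSpace ℝ (Fin 2)), S.card = l.length ∧
      ¬ Collinear ℝ (S : Set (EuclideanSpace ℝ (Fin 2))) ∧
      ∀ p ∈ S, {L : AffineSubspace ℝ (EuclideanSpace ℝ (Fin 2)) |
        ∃ q ∈ S, q ≠ p ∧ L = affineSpan ℝ {p, q}}.ncard ≤ k := by
  classical
  refine ⟨(l.map (pt d)).toFinset, ?_, ?_, ?_⟩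
  · rw [List.toFinset_card_of_nodup (injOn_pt hd hirr l hc hdis), List.length_map]
  · intro hcol
    match l, hnc with
    | p :: q :: r :: l', hnc =>
      simp only [noncol, Bool.not_eq_true'] at hnc
      have hp : v3 d p ≠ 0 := v3_ne hirr hc (by simp)
      have hq : v3 d q ≠ 0 := v3_ne hirr hc (by simp)
      have hr : v3 d r ≠ 0 := v3_ne hirr hc (by simp)
      have hcol3 : Collinear ℝ ({pt d p, pt d q, pt d r} : Set (EuclideanSpace ℝ (Fin 2))) := by
        apply hcol.subset
        intro x hx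
        simp only [Set.mem_insert_iff, Set.mem_singleton_iff] at hx
        rw [Finset.mem_coe, List.mem_toFinset]
        rcases hx with rfl | rfl | rfl <;> simp
      have hpq : pt d p ≠ pt d q := by
        have := injOn_pt hd hirr _ hc hdis
        simp only [List.map_cons, List.nodup_cons, List.mem_cons, not_or] at this
        exact this.1.1
      have hmem : pt d r ∈ affineSpan ℝ ({pt d p, pt d q} : Set (EuclideanSpace ℝ (Fin 2))) :=
        hcol3.mem_affineSpan_of_mem_of_ne (by simp) (by simp) (by simp) hpq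
      have h1 := det_pt hd hp hq hr
      rw [sub_eq_zero.2 (det_of_mem hmem), zero_mul] at h1
      obtain ⟨h2, h3⟩ := val_eq_zero hirr h1.symm
      simp [orth, h2, h3] at hnc
  · intro x hx
    rw [List.mem_toFinset, List.mem_map] at hx
    obtain ⟨p, hp, rfl⟩ := hx
    have hp3 := v3_ne hirr hc hp
    have hsub : {L : AffineSubspace ℝ (EuclideanSpace ℝ (Fin 2)) |
        ∃ q ∈ (l.map (pt d)).toFinset, q ≠ pt d p ∧ L = affineSpan ℝ {pt d p, q}} ⊆
        (((reps d p l []).map fun r =>
          affineSpan ℝ ({pt d p, pt d r} : Set (EuclideanSpace ℝ (Fin 2)))).toFinset :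
            Set (AffineSubspace ℝ (EuclideanSpace ℝ (Fin 2)))) := by
      rintro L ⟨y, hy, hyp, rfl⟩
      rw [List.mem_toFinset, List.mem_map] at hy
      obtain ⟨q, hq, rfl⟩ := hy
      have hq3 := v3_ne hirr hc hq
      have hz : (cross d p q).isZero = false := by
        by_contra h
        rw [Bool.not_eq_false] at h
        exact hyp ((pt_eq_iff hd hirr hp3 hq3).2 h).symm
      obtain ⟨r, hr, hor⟩ := exists_reps d p l [] q hq hz
      rcases mem_reps d p l [] r hr with h | ⟨hrl, hrz⟩
      · simp at h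
      have hr3 := v3_ne hirr hc hrl
      have hrp : pt d r ≠ pt d p := by
        intro h
        rw [(pt_eq_iff hd hirr hp3 hr3).1 h.symm] at hrz
        simp at hrz
      rw [Finset.mem_coe, List.mem_toFinset, List.mem_map]
      exact ⟨r, hr, (span_eq_of_orth hd hp3 hq3 hr3 hyp hrp hor).symm⟩
    refine (Set.ncard_le_ncard hsub (Finset.finite_toSet _)).trans ?_
    rw [Set.ncard_coe_finset]
    refine (List.toFinset_card_le _).trans ?_
    rw [List.length_map]
    simp only [few, List.all_eq_true] at hfew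
    exact Nat.le_of_ble_eq_true (hfew p hp)

end Pool.Agent.H12.Dirac
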