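import Mathlib
import Pool.Agent.H12.Dirac.Quad

set_option autoImplicit false

/-! The 85 points over `ℤ[√2]`, in the affine chart `x + 2 y + 4 z = 1`. -/

namespace Pool.Agent.H12.Dirac

/-- homogeneous coordinates of the points -/
def pts85 : List W := [
  ⟨1, 0, 0, 0, 1, 0⟩, ⟨0, 0, 1, 0, 2, 0⟩, ⟨0, 0, 0, 0, 4, 0⟩, ⟨1, 0, 1, 0, 3, 0⟩,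
  ⟨1, 0, -1, 0, -1, 0⟩, ⟨1, 0, 0, 0, 5, 0⟩, ⟨1, 0, 0, 0, -3, 0⟩, ⟨0, 0, 1, 0, 6, 0⟩,
  ⟨0, 0, 1, 0, -2, 0⟩, ⟨1, 0, 1, 0, 7, 0⟩, ⟨1, 0, 1, 0, -1, 0⟩, ⟨1, 0, -1, 0, 3, 0⟩,
  ⟨1, 0, -1, 0, -5, 0⟩, ⟨1, 1, 1, 0, 7, 1⟩, ⟨1, 1, 1, 0, -1, 1⟩, ⟨1, 1, -1, 0, 3, 1⟩,
  ⟨1, 1, -1, 0, -5, 1⟩, ⟨1, 0, 1, 1, 7, 2⟩, ⟨1, 0, 1, 1, -1, 2⟩, ⟨1, 0, -1, -1, 3, -2⟩,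
  ⟨1, 0, -1, -1, -5, -2⟩, ⟨1, 0, 1, 0, 7, 4⟩, ⟨1, 0, 1, 0, -1, -4⟩, ⟨1, 0, -1, 0, 3, 4⟩,
  ⟨1, 0, -1, 0, -5, -4⟩, ⟨-1, 1, 1, 0, 5, 1⟩, ⟨-1, 1, 1, 0, -3, 1⟩, ⟨-1, 1, -1, 0, 1, 1⟩,
  ⟨-1, 1, -1, 0, -7, 1⟩, ⟨1, 0, -1, 1, 3, 2⟩, ⟨1, 0, -1, 1, -5, 2⟩, ⟨1, 0, 1, -1, 7, -2⟩,
  ⟨1, 0, 1, -1, -1, -2⟩, ⟨1, 0, 1, 0, -1, 4⟩, ⟨1, 0, 1, 0, 7, -4⟩, ⟨1, 0, -1, 0, -5, 4⟩,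
  ⟨1, 0, -1, 0, 3, -4⟩, ⟨3, 2, 1, 0, 9, 2⟩, ⟨3, 2, 1, 0, 1, 2⟩, ⟨3, 2, -1, 0, 5, 2⟩,
  ⟨3, 2, -1, 0, -3, 2⟩, ⟨1, 0, 3, 2, 11, 4⟩, ⟨1, 0, 3, 2, 3, 4⟩, ⟨1, 0, -3, -2, -1, -4⟩,
  ⟨1, 0, -3, -2, -9, -4⟩, ⟨1, 0, 1, 0, 15, 8⟩, ⟨1, 0, 1, 0, -9, -8⟩, ⟨1, 0, -1, 0, 11, 8⟩,
  ⟨1, 0, -1, 0, -13, -8⟩, ⟨3, -2, 1, 0, 9, -2⟩, ⟨3, -2, 1, 0, 1, -2⟩, ⟨3, -2, -1, 0, 5, -2⟩,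
  ⟨3, -2, -1, 0, -3, -2⟩, ⟨1, 0, 3, -2, 11, -4⟩, ⟨1, 0, 3, -2, 3, -4⟩, ⟨1, 0, -3, 2, -1, 4⟩,
  ⟨1, 0, -3, 2, -9, 4⟩, ⟨1, 0, 1, 0, 15, -8⟩, ⟨1, 0, 1, 0, -9, 8⟩, ⟨1, 0, -1, 0, 11, -8⟩,
  ⟨1, 0, -1, 0, -13, 8⟩, ⟨-1, 2, 1, 0, 5, 2⟩, ⟨-1, 2, 1, 0, -3, 2⟩, ⟨-1, 2, -1, 0, 1, 2⟩,
  ⟨-1, 2, -1, 0, -7, 2⟩, ⟨1, 0, -1, 2, 3, 4⟩, ⟨1, 0, -1, 2, -5, 4⟩, ⟨1, 0, 1, -2, 7, -4⟩,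
  ⟨1, 0, 1, -2, -1, -4⟩, ⟨1, 0, 1, 0, -1, 8⟩, ⟨1, 0, 1, 0, 7, -8⟩, ⟨1, 0, -1, 0, -5, 8⟩,
  ⟨1, 0, -1, 0, 3, -8⟩, ⟨1, 2, 1, 0, 7, 2⟩, ⟨1, 2, 1, 0, -1, 2⟩, ⟨1, 2, -1, 0, 3, 2⟩,
  ⟨1, 2, -1, 0, -5, 2⟩, ⟨1, 0, 1, 2, 7, 4⟩, ⟨1, 0, 1, 2, -1, 4⟩, ⟨1, 0, -1, -2, 3, -4⟩,
  ⟨1, 0, -1, -2, -5, -4⟩, ⟨1, 0, 1, 0, 7, 8⟩, ⟨1, 0, 1, 0, -1, -8⟩, ⟨1, 0, -1, 0, 3, 8⟩,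
  ⟨1, 0, -1, 0, -5, -8⟩]

lemma len85 : pts85.length = 85 := rfl

lemma chart85 : chart pts85 = true := by decide +kernel

lemma distinct85 : distinct 2 pts85 = true := by decide +kernel

lemma few85 : few 2 36 pts85 = true := by decide +kernel

lemma noncol85 : noncol 2 pts85 = true := by decide +kernel

end Pool.Agent.H12.Dirac
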